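import Pool.Agent.Y875.UE.Stm

set_option autoImplicit false

/-!
# Universal Pepin test, task COC: the cocycle relation of Jacobi sums, differentiated
-/

namespace Pool.Agent.Y484.UE

open Finset Pool.Agent.Y875.UE

section basics

variable {R : Type} [CommRing R] {N : ℕ}

/-- coefficients -/
noncomputable def cc (R : Type) [CommRing R] (N : ℕ) : R →+* GR R N :=
  AddMonoidAlgebra.singleZeroRingHom

/-- basis elements -/
noncomputable def TT (R : Type) [CommRing R] {N : ℕ} (A : ZMod N) : GR R N := sgl A 1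

theorem sgl_eq (A : ZMod N) (r : R) : sgl A r = cc R N r * TT R A := by
  unfold cc TT sgl
  change _ = AddMonoidAlgebra.single 0 r * AddMonoidAlgebra.single A 1
  rw [AddMonoidAlgebra.single_mul_single, zero_add, mul_one]

theorem TT_add (A B : ZMod N) : TT R (A + B) = TT R A * TT R B := by
  unfold TT sgl
  rw [AddMonoidAlgebra.single_mul_single, mul_one]

theorem TT_zero : TT R (0 : ZMod N) = 1 := rfl

variable [NeZero N]

/-- multiplication of the coefficients by weights -/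
noncomputable def Dw (w : ZMod N → R) : GR R N →+ GR R N where
  toFun f := ∑ A : ZMod N, sgl A (w A * f.coeff A)
  map_zero' := by
    refine sum_eq_zero fun A _ => ?_
    rw [AddMonoidAlgebra.coeff_zero, Finsupp.zero_apply, mul_zero]
    exact AddMonoidAlgebra.single_zero A
  map_add' x y := by
    rw [← sum_add_distrib]
    refine sum_congr rfl fun A _ => ?_
    rw [AddMonoidAlgebra.coeff_add, Finsupp.add_apply, mul_add]
    exact AddMonoidAlgebra.single_add A _ _

theorem Dw_apply (w : ZMod N → R) (f : GR R N) :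
    Dw w f = ∑ A : ZMod N, sgl A (w A * f.coeff A) := rfl

theorem DD_eq (f : GR R N) : DD f = Dw (fun A : ZMod N => (A.val : R)) f := rfl

theorem Dw_sgl (w : ZMod N → R) (A : ZMod N) (r : R) : Dw w (sgl A r) = sgl A (w A * r) := by
  rw [Dw_apply, sum_eq_single A]
  · rw [AddMonoidAlgebra.coeff_single, Finsupp.single_eq_same]
  · intro B _ hB
    rw [AddMonoidAlgebra.coeff_single, Finsupp.single_eq_of_ne hB, mul_zero]
    exact AddMonoidAlgebra.single_zero B
  · intro h
    exact absurd (mem_univ A) h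

theorem Dw_TT (w : ZMod N → R) (A : ZMod N) (r : R) :
    Dw w (cc R N r * TT R A) = cc R N (w A) * (cc R N r * TT R A) := by
  rw [← sgl_eq, Dw_sgl, sgl_eq, map_mul, sgl_eq, mul_assoc]

end basics

section sign

variable {k : ℕ}

theorem neg_pow_mod {N : ℕ} (hN : Even N) (x : ℕ) : (-1 : ℤ) ^ (x % N) = (-1) ^ x := by
  conv_rhs => rw [← Nat.div_add_mod x N]
  rw [pow_add, pow_mul, hN.neg_one_pow, one_pow, one_mul]

theorem even_two_pow (hk : 1 ≤ k) : Even (2 ^ k) := by
  rw [Nat.even_pow]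
  exact ⟨even_two, by omega⟩

theorem sg_add (hk : 1 ≤ k) (A B : ZMod (2 ^ k)) : sg (A + B) = sg A * sg B := by
  unfold sg
  rw [ZMod.val_add, neg_pow_mod (even_two_pow hk), pow_add]

theorem sg_zero : sg (0 : ZMod (2 ^ k)) = 1 := by
  unfold sg
  rw [ZMod.val_zero, pow_zero]

theorem sg_odd {A : ZMod (2 ^ k)} (h : Odd A.val) : sg A = -1 := h.neg_one_pow

theorem sg_not_odd {A : ZMod (2 ^ k)} (h : ¬ Odd A.val) : sg A = 1 :=
  (Nat.not_odd_iff_even.1 h).neg_one_pow

theorem val_add (A B : ZMod (2 ^ k)) : ∃ n : ℕ, A.val + B.val = (A + B).val + 2 ^ k * n :=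
  ⟨(A.val + B.val) / 2 ^ k, by rw [ZMod.val_add, Nat.mod_add_div]⟩

end sign

section inv

variable {E : Type} [Field E]

/-- the involution -/
def ph (p : E × E) : E × E := (p.1 * p.2 / (1 - (1 - p.1) * p.2), 1 - (1 - p.1) * p.2)

/-- its domain -/
def VV (p : E × E) : Prop := (p.1 ≠ 0 ∧ p.1 ≠ 1) ∧ (p.2 ≠ 0 ∧ p.2 ≠ 1) ∧ (1 - p.1) * p.2 ≠ 1

theorem ph_facts {p : E × E} (h : VV p) : (ph p).1 * (ph p).2 = p.1 * p.2 ∧
    1 - (ph p).2 = (1 - p.1) * p.2 ∧ (1 - (ph p).1) * (ph p).2 = 1 - p.2 := by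
  obtain ⟨-, -, h3⟩ := h
  have h0 : 1 - (1 - p.1) * p.2 ≠ 0 := fun h => h3 (sub_eq_zero.1 h).symm
  have e1 : (ph p).1 * (ph p).2 = p.1 * p.2 := div_mul_cancel₀ _ h0
  have e2 : (ph p).2 = 1 - (1 - p.1) * p.2 := rfl
  refine ⟨e1, by rw [e2]; ring, ?_⟩
  rw [sub_mul, one_mul, e1, e2]
  ring

theorem ph_mem {p : E × E} (h : VV p) : VV (ph p) := by
  obtain ⟨f1, f2, f3⟩ := ph_facts h
  obtain ⟨⟨h1, h2⟩, ⟨h3, h4⟩, h5⟩ := h
  have a1 : 1 - p.1 ≠ 0 := fun h => h2 (sub_eq_zero.1 h).symm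
  have a2 : 1 - p.2 ≠ 0 := fun h => h4 (sub_eq_zero.1 h).symm
  have b0 : (ph p).2 ≠ 0 := fun h => h5 (by
    have : 1 - (1 - p.1) * p.2 = 0 := h
    exact (sub_eq_zero.1 this).symm)
  refine ⟨⟨?_, ?_⟩, ⟨b0, ?_⟩, ?_⟩
  · intro h
    rw [h, zero_mul] at f1
    exact mul_ne_zero h1 h3 f1.symm
  · intro h
    rw [h, sub_self, zero_mul] at f3
    exact a2 f3.symm
  · intro h
    rw [h, sub_self] at f2
    exact mul_ne_zero a1 h3 f2.symm
  · rw [f3]
    intro h
    apply h3
    linear_combination -h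

theorem ph_ph {p : E × E} (h : VV p) : ph (ph p) = p := by
  obtain ⟨f1, f2, f3⟩ := ph_facts h
  obtain ⟨g1, g2, g3⟩ := ph_facts (ph_mem h)
  obtain ⟨⟨h1, h2⟩, ⟨h3, h4⟩, h5⟩ := h
  have e2 : (ph (ph p)).2 = p.2 := by
    rw [f3] at g2
    linear_combination -g2
  have e1 : (ph (ph p)).1 = p.1 := by
    rw [f1, e2] at g1
    exact mul_right_cancel₀ h3 g1
  exact Prod.ext e1 e2

end inv

open Classical in
theorem coc : S_COC := by
  intro R E _ _ _ k hk l hl lam hm h1 h0 hsum
  have hl1 : l 1 = 0 := by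
    have h := hl 1 1 one_ne_zero one_ne_zero
    rw [mul_one] at h
    exact left_eq_add.1 h
  obtain ⟨c, hc⟩ : ∃ c : R →+* GR R (2 ^ k), c = cc R (2 ^ k) := ⟨_, rfl⟩
  obtain ⟨T, hT⟩ : ∃ T : ZMod (2 ^ k) → GR R (2 ^ k), ∀ A, T A = TT R A := ⟨_, fun _ => rfl⟩
  have hs : ∀ (A : ZMod (2 ^ k)) (r : R), sgl A r = c r * T A := fun A r => by
    rw [hc, hT]
    exact sgl_eq A r
  have hTa : ∀ A B, T (A + B) = T A * T B := fun A B => by
    rw [hT, hT, hT]
    exact TT_add A B
  have hT0 : T 0 = 1 := by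
    rw [hT]
    exact TT_zero
  have hDw : ∀ (w : ZMod (2 ^ k) → R) (A : ZMod (2 ^ k)) (r : R),
      Dw w (c r * T A) = c (w A) * (c r * T A) := fun w A r => by
    rw [hc, hT]
    exact Dw_TT w A r
  simp only [hs] at hsum
  obtain ⟨U, hU⟩ : ∃ U : Finset E, ∀ s, s ∈ U ↔ s ≠ 0 ∧ s ≠ 1 :=
    ⟨univ.filter fun s => s ≠ 0 ∧ s ≠ 1, fun s => by simp⟩
  have hUsum : ∀ F : E → GR R (2 ^ k), ∑ s ∈ U, F s = ∑ s : E, if s ≠ 0 ∧ s ≠ 1 then F s else 0 := by
    intro F
    rw [← sum_filter]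
    refine sum_congr ?_ fun _ _ => rfl
    ext s
    rw [hU, mem_filter]
    simp
  -- the three sums
  obtain ⟨J, hJ⟩ : ∃ J : GR R (2 ^ k), J = ∑ s ∈ U, c (lam s) * (sg (l (1 - s)) : GR R (2 ^ k)) *
      T (l s) := ⟨_, rfl⟩
  obtain ⟨K, hK⟩ : ∃ K : GR R (2 ^ k), K = ∑ s ∈ U, c (lam s) *
      ((l (1 - s)).val : GR R (2 ^ k)) * T (l s) := ⟨_, rfl⟩
  obtain ⟨K', hK'⟩ : ∃ K' : GR R (2 ^ k), K' = ∑ s ∈ U, c (lam s) * (sg (l s) : GR R (2 ^ k)) *
      ((l (1 - s)).val : GR R (2 ^ k)) * T (l s) := ⟨_, rfl⟩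
  -- the sum of all basis elements
  have hsU : ∑ s ∈ U, c (lam s) * T (l s) = -1 := by
    have e1 : ∑ s : E, c (lam s) * T (l s) = ∑ s ∈ U, c (lam s) * T (l s) + 1 := by
      rw [hUsum, ← sum_add_sum_compl {(0 : E), 1}]
      have e2 : ∑ s ∈ ({(0 : E), 1} : Finset E), c (lam s) * T (l s) = 1 := by
        rw [sum_pair zero_ne_one, h0, h1, hl1, map_zero, map_one, hT0]
        ring
      have e3 : ∑ s ∈ ({(0 : E), 1} : Finset E)ᶜ, c (lam s) * T (l s) =
          ∑ s : E, if s ≠ 0 ∧ s ≠ 1 then c (lam s) * T (l s) else 0 := by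
        rw [← sum_filter]
        refine sum_congr ?_ fun _ _ => rfl
        ext s
        simp
      rw [e2, e3]
      ring
    rw [hsum] at e1
    linear_combination -e1
  -- J in terms of HH
  have hJH : J = -1 - 2 * HH l lam := by
    have e1 : (HH l lam : GR R (2 ^ k)) = ∑ s ∈ U, if Odd (l (1 - s)).val then
        c (lam s) * T (l s) else 0 := by
      rw [hUsum]
      unfold HH
      refine sum_congr rfl fun s _ => ?_
      rw [hs]
      by_cases a1 : s ≠ 0 ∧ s ≠ 1
      · rw [if_pos a1]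
        by_cases a2 : Odd (l (1 - s)).val
        · rw [if_pos ⟨a1.1, a1.2, a2⟩, if_pos a2]
        · rw [if_neg (fun h => a2 h.2.2), if_neg a2]
      · rw [if_neg a1, if_neg (fun h => a1 ⟨h.1, h.2.1⟩)]
    rw [e1, ← hsU, hJ, mul_sum, ← sum_sub_distrib]
    refine sum_congr rfl fun s _ => ?_
    split_ifs with a1
    · rw [sg_odd a1]
      push_cast
      ring
    · rw [sg_not_odd a1]
      push_cast
      ring
  -- K - K' in terms of CC
  have hKC : K - K' = 2 * CC l lam := by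
    have e1 : (CC l lam : GR R (2 ^ k)) = ∑ s ∈ U, if Odd (l s).val then
        c (lam s) * ((l (1 - s)).val : GR R (2 ^ k)) * T (l s) else 0 := by
      rw [hUsum]
      unfold CC
      refine sum_congr rfl fun s _ => ?_
      rw [hs, map_mul, map_natCast]
      by_cases a1 : s ≠ 0 ∧ s ≠ 1
      · rw [if_pos a1]
        by_cases a2 : Odd (l s).val
        · rw [if_pos ⟨a1.1, a1.2, a2⟩, if_pos a2]
        · rw [if_neg (fun h => a2 h.2.2), if_neg a2]
      · rw [if_neg a1, if_neg (fun h => a1 ⟨h.1, h.2.1⟩)]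
    rw [e1, hK, hK', mul_sum, ← sum_sub_distrib]
    refine sum_congr rfl fun s _ => ?_
    split_ifs with a1
    · rw [sg_odd a1]
      push_cast
      ring
    · rw [sg_not_odd a1]
      push_cast
      ring
  -- the derivative of J
  have hDJ : DD J = ∑ s ∈ U, c (lam s) * (sg (l (1 - s)) : GR R (2 ^ k)) *
      ((l s).val : GR R (2 ^ k)) * T (l s) := by
    rw [DD_eq, hJ, map_sum]
    refine sum_congr rfl fun s _ => ?_
    have e1 : c (lam s) * (sg (l (1 - s)) : GR R (2 ^ k)) * T (l s) =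
        c (lam s * (sg (l (1 - s)) : R)) * T (l s) := by
      rw [map_mul, map_intCast]
    rw [e1, hDw, map_mul, map_intCast, map_natCast]
    ring
  have hDJ' : DD J = -2 * DD (HH l lam) := by
    have e1 : DD (1 : GR R (2 ^ k)) = 0 := by
      have e2 : (1 : GR R (2 ^ k)) = c 1 * T 0 := by rw [map_one, hT0, mul_one]
      rw [DD_eq, e2, hDw, ZMod.val_zero, Nat.cast_zero, map_zero, zero_mul]
    rw [DD_eq, hJH]
    have e3 : (-1 - 2 * HH l lam : GR R (2 ^ k)) = -(1 + (HH l lam + HH l lam)) := by ring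
    rw [e3, map_neg, map_add, map_add, ← DD_eq, ← DD_eq, e1]
    ring
  -- the double sums
  obtain ⟨X, hX⟩ : ∃ X : E × E → GR R (2 ^ k), ∀ p, X p = c (lam (p.1 * p.2)) *
      (sg (l (1 - p.2)) : GR R (2 ^ k)) * ((l ((1 - p.1) * p.2)).val : GR R (2 ^ k)) *
        T (l (p.1 * p.2)) := ⟨_, fun _ => rfl⟩
  obtain ⟨Y, hY⟩ : ∃ Y : E × E → GR R (2 ^ k), ∀ p, Y p = c (lam (p.1 * p.2)) *
      (sg (l ((1 - p.1) * p.2)) : GR R (2 ^ k)) * ((l (1 - p.2)).val : GR R (2 ^ k)) *
        T (l (p.1 * p.2)) := ⟨_, fun _ => rfl⟩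
  have hsub : ∀ s ∈ U, 1 - s ≠ 0 := fun s h1 h2 => ((hU s).1 h1).2 (sub_eq_zero.1 h2).symm
  -- the first one
  have hXK : ∃ g : GR R (2 ^ k), K * J - DD J = ∑ p ∈ U ×ˢ U, X p + 2 ^ k * g := by
    have e1 : K * J - DD J = ∑ p ∈ U ×ˢ U, c (lam p.1) * c (lam p.2) *
        (sg (l (1 - p.2)) : GR R (2 ^ k)) *
        (((l (1 - p.1)).val : GR R (2 ^ k)) + ((l p.2).val : GR R (2 ^ k))) *
        (T (l p.1) * T (l p.2)) := by
      have e2 : K * J - DD J = K * J + (∑ s ∈ U, c (lam s) * T (l s)) * DD J := by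
        rw [hsU]
        ring
      rw [e2, hDJ, hK, hJ, sum_mul_sum, sum_mul_sum, ← sum_product', ← sum_product',
        ← sum_add_distrib]
      refine sum_congr rfl fun p _ => ?_
      ring
    have e3 : ∀ p ∈ U ×ˢ U, ∃ g : GR R (2 ^ k), c (lam p.1) * c (lam p.2) *
        (sg (l (1 - p.2)) : GR R (2 ^ k)) *
        (((l (1 - p.1)).val : GR R (2 ^ k)) + ((l p.2).val : GR R (2 ^ k))) *
        (T (l p.1) * T (l p.2)) = X p + 2 ^ k * g := by
      intro p hp
      rw [mem_product] at hp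
      have p1 := (hU _).1 hp.1
      have p2 := (hU _).1 hp.2
      obtain ⟨n, hn⟩ := val_add (l (1 - p.1)) (l p.2)
      have e4 : ((l (1 - p.1)).val : GR R (2 ^ k)) + ((l p.2).val : GR R (2 ^ k)) =
          ((l ((1 - p.1) * p.2)).val : GR R (2 ^ k)) + 2 ^ k * (n : GR R (2 ^ k)) := by
        rw [hl _ _ (hsub _ hp.1) p2.1]
        have e5 := congrArg (Nat.cast : ℕ → GR R (2 ^ k)) hn
        push_cast at e5
        exact e5
      refine ⟨c (lam p.1) * c (lam p.2) * (sg (l (1 - p.2)) : GR R (2 ^ k)) * n *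
        (T (l p.1) * T (l p.2)), ?_⟩
      rw [hX, e4, hm, map_mul, hl _ _ p1.1 p2.1, hTa]
      ring
    choose! g hg using e3
    refine ⟨∑ p ∈ U ×ˢ U, g p, ?_⟩
    rw [e1, sum_congr rfl hg, sum_add_distrib, mul_sum]
  -- the second one
  have hYK : J * K' = ∑ p ∈ U ×ˢ U, Y p := by
    rw [hJ, hK', sum_mul_sum, ← sum_product']
    refine sum_congr rfl fun p hp => ?_
    rw [mem_product] at hp
    have p1 := (hU _).1 hp.1
    have p2 := (hU _).1 hp.2
    rw [hY, hm, map_mul, hl _ _ p1.1 p2.1, hTa, hl _ _ (hsub _ hp.1) p2.1, sg_add hk]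
    push_cast
    ring
  -- they agree
  have hXY : ∑ p ∈ U ×ˢ U, X p = ∑ p ∈ U ×ˢ U, Y p := by
    rw [← sum_filter_add_sum_filter_not (U ×ˢ U) (fun p => (1 - p.1) * p.2 = 1) X,
      ← sum_filter_add_sum_filter_not (U ×ˢ U) (fun p => (1 - p.1) * p.2 = 1) Y]
    have hV : ∀ p, p ∈ (U ×ˢ U).filter (fun p => ¬ (1 - p.1) * p.2 = 1) ↔ VV p := by
      intro p
      rw [mem_filter, mem_product, hU, hU]
      exact and_assoc
    have e1 : ∑ p ∈ (U ×ˢ U).filter (fun p => ¬ (1 - p.1) * p.2 = 1), X p =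
        ∑ p ∈ (U ×ˢ U).filter (fun p => ¬ (1 - p.1) * p.2 = 1), Y p := by
      refine sum_bij' (fun p _ => ph p) (fun p _ => ph p) ?_ ?_ ?_ ?_ ?_
      · intro p hp
        exact (hV _).2 (ph_mem ((hV p).1 hp))
      · intro p hp
        exact (hV _).2 (ph_mem ((hV p).1 hp))
      · intro p hp
        exact ph_ph ((hV p).1 hp)
      · intro p hp
        exact ph_ph ((hV p).1 hp)
      · intro p hp
        obtain ⟨f1, f2, f3⟩ := ph_facts ((hV p).1 hp)
        rw [hX, hY, f1, f2, f3]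
    have e2 : ∑ p ∈ (U ×ˢ U).filter (fun p => (1 - p.1) * p.2 = 1), X p = 0 := by
      refine sum_eq_zero fun p hp => ?_
      rw [mem_filter] at hp
      rw [hX, hp.2, hl1, ZMod.val_zero, Nat.cast_zero]
      ring
    have e3 : ∑ p ∈ (U ×ˢ U).filter (fun p => (1 - p.1) * p.2 = 1), Y p = 0 := by
      have e4 : ∑ p ∈ (U ×ˢ U).filter (fun p => (1 - p.1) * p.2 = 1), Y p =
          ∑ v ∈ univ.filter (fun v : E => v ≠ 0 ∧ v ≠ -1), c (lam v) *
            ((l (-v)).val : GR R (2 ^ k)) * T (l v) := by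
        refine sum_bij' (fun p _ => p.2 - 1) (fun v _ => (v / (1 + v), 1 + v)) ?_ ?_ ?_ ?_ ?_
        · intro p hp
          rw [mem_filter, mem_product, hU, hU] at hp
          rw [mem_filter]
          refine ⟨mem_univ _, fun h => hp.1.2.2 (sub_eq_zero.1 h), fun h => hp.1.2.1 ?_⟩
          linear_combination h
        · intro v hv
          rw [mem_filter] at hv
          obtain ⟨-, v1, v2⟩ := hv
          have v3 : 1 + v ≠ 0 := fun h => v2 (by linear_combination h)
          rw [mem_filter, mem_product, hU, hU]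
          refine ⟨⟨⟨div_ne_zero v1 v3, ?_⟩, v3, ?_⟩, ?_⟩
          · intro h
            rw [div_eq_one_iff_eq v3] at h
            exact one_ne_zero (α := E) (by linear_combination -h)
          · intro h
            exact v1 (by
              change 1 + v = 1 at h
              linear_combination h)
          · change (1 - v / (1 + v)) * (1 + v) = 1
            field_simp
            ring
        · intro p hp
          rw [mem_filter, mem_product, hU, hU] at hp
          obtain ⟨⟨p1, p2⟩, p3⟩ := hp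
          refine Prod.ext ?_ ?_
          · change (p.2 - 1) / (1 + (p.2 - 1)) = p.1
            rw [div_eq_iff (by
              intro h
              apply p2.1
              linear_combination h)]
            linear_combination p3
          · change 1 + (p.2 - 1) = p.2
            ring
        · intro v _
          change 1 + v - 1 = v
          ring
        · intro p hp
          rw [mem_filter, mem_product, hU, hU] at hp
          obtain ⟨-, p3⟩ := hp
          have p4 : p.1 * p.2 = p.2 - 1 := by linear_combination -p3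
          have p5 : -(p.2 - 1) = 1 - p.2 := by ring
          rw [hY, p3, hl1, sg_zero, p4, p5]
          push_cast
          ring
      have e5 : ∑ v ∈ univ.filter (fun v : E => v ≠ 0 ∧ v ≠ -1), c (lam v) *
            ((l (-v)).val : GR R (2 ^ k)) * T (l v) = ∑ v : E, c (lam v) *
            (((l (-1) + l v).val : ℕ) : GR R (2 ^ k)) * T (l v) := by
        rw [sum_filter]
        refine sum_congr rfl fun v _ => ?_
        by_cases v1 : v = 0
        · rw [if_neg (fun h => h.1 v1), v1, h0, map_zero]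
          ring
        · have v2 : l (-v) = l (-1) + l v := by
            rw [← hl _ _ (neg_ne_zero.2 one_ne_zero) v1, neg_one_mul]
          by_cases v3 : v = -1
          · rw [if_neg (fun h => h.2 v3), ← v2, v3, neg_neg, hl1, ZMod.val_zero, Nat.cast_zero]
            ring
          · rw [if_pos ⟨v1, v3⟩, v2]
      have e6 : ∑ v : E, c (lam v) * (((l (-1) + l v).val : ℕ) : GR R (2 ^ k)) * T (l v) =
          Dw (fun A : ZMod (2 ^ k) => ((l (-1) + A).val : R)) (∑ v : E, c (lam v) * T (l v)) := by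
        rw [map_sum]
        refine sum_congr rfl fun v _ => ?_
        rw [hDw, map_natCast]
        ring
      rw [e4, e5, e6, hsum, map_zero]
    rw [e1, e2, e3]
  -- the end
  obtain ⟨g, hg⟩ := hXK
  refine ⟨-g, ?_⟩
  have e1 : (1 + 2 * HH l lam : GR R (2 ^ k)) = -J := by
    rw [hJH]
    ring
  rw [hXY, ← hYK] at hg
  have e2 : 2 * DD (HH l lam) = -DD J := by
    rw [hDJ']
    ring
  rw [e1, e2]
  have e3 : 2 * (-J * CC l lam) = -J * (K - K') := by
    rw [hKC]
    ring
  rw [e3]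
  linear_combination -hg

end Pool.Agent.Y484.UE
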